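import Pool.Agent.Helper37.RG3.Goals

set_option autoImplicit false
set_option linter.unusedSectionVars false
set_option linter.unusedSimpArgs false

/-!
The gadget for a side with an even number of vertices.
-/

namespace Pool.Agent.Helper77.RG3

open Finset Pool.Agent.Helper37.RG3

variable {V : Type} [Fintype V] [DecidableEq V]

theorem bt_edg {a b : V} (hab : a ≠ b) (n : ℕ) (A B : Finset V) :
    bt (edg a b n) A B = (if a ∈ A ∧ b ∈ B then n else 0) + (if b ∈ A ∧ a ∈ B then n else 0) := by
  have h1 : ∀ u v, edg a b n u v = (if u = a then (if v = b then n else 0) else 0) +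
      (if u = b then (if v = a then n else 0) else 0) := by
    intro u v
    unfold edg
    by_cases h1 : u = a
    · subst h1
      by_cases h2 : v = b
      · subst h2; simp [hab]
      · simp [h2, hab]
    · simp only [h1, false_and, false_or, if_false, zero_add]
      by_cases h2 : u = b
      · by_cases h3 : v = a <;> simp [h2, h3]
      · simp [h2]
  have key : ∀ a b : V, ∑ u ∈ A, ∑ v ∈ B, (if u = a then (if v = b then n else 0) else 0) =
      (if a ∈ A ∧ b ∈ B then n else 0) := by
    intro a b
    have h2 : ∀ u, ∑ v ∈ B, (if u = a then (if v = b then n else 0) else 0) =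
        if u = a then (if b ∈ B then n else 0) else 0 := by
      intro u
      by_cases h : u = a
      · simp [h]
      · simp [h]
    simp only [h2, Finset.sum_ite_eq']
    by_cases h3 : a ∈ A <;> by_cases h4 : b ∈ B <;> simp [h3, h4]
  unfold bt
  simp only [h1, Finset.sum_add_distrib, key]

theorem ct_edg {a b : V} (hab : a ≠ b) (n : ℕ) (W : Finset V) :
    ct (edg a b n) W = (if a ∈ W ∧ b ∉ W then n else 0) + (if b ∈ W ∧ a ∉ W then n else 0) := by
  unfold ct
  rw [bt_edg hab]
  simp only [Finset.mem_compl]

theorem edg_symm (a b : V) (n : ℕ) (u v : V) : edg a b n u v = edg a b n v u := by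
  unfold edg
  congr 1
  apply propext
  tauto

theorem edg_self {a b : V} (hab : a ≠ b) (n : ℕ) (u : V) : edg a b n u u = 0 := by
  unfold edg
  rw [if_neg]
  rintro (⟨h1, h2⟩ | ⟨h1, h2⟩)
  · exact hab (h1.symm.trans h2)
  · exact hab (h2.symm.trans h1)

theorem edg_supp {a b : V} {n : ℕ} {u v : V} (h : edg a b n u v ≠ 0) : u = a ∨ u = b := by
  unfold edg at h
  by_contra hc
  push Not at hc
  exact h (if_neg (by tauto))

/-- Weights of a set disjoint from `X`. -/
theorem ct_del (w : V → V → ℕ) {X W : Finset V} (h : Disjoint W X) :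
    ct w W = ct (del w X) W + bt w W X := by
  have e1 : Wᶜ = (W ∪ X)ᶜ ∪ X := by
    ext v
    have : v ∈ W → v ∉ X := fun h1 => Finset.disjoint_left.1 h h1
    simp; tauto
  have d1 : Disjoint (W ∪ X)ᶜ X := by
    rw [Finset.disjoint_left]; intro v; simp
  unfold ct
  rw [e1, bt_union_right _ _ d1, bt_union_right _ _ d1]
  have h2 : bt (del w X) W X = 0 := by
    rw [bt_eq_zero]
    intro u _ v hv
    unfold del
    rw [if_pos (Or.inr hv)]
  have h3 : bt (del w X) W (W ∪ X)ᶜ = bt w W (W ∪ X)ᶜ := by
    refine bt_congr fun u hu v hv => ?_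
    unfold del
    rw [if_neg]
    rintro (h4 | h4)
    · exact Finset.disjoint_left.1 h hu h4
    · simp at hv; exact hv.2 h4
  omega

theorem ct_del' (w : V → V → ℕ) {X W : Finset V} (h : Disjoint W X) :
    ct w (W ∪ X) = ct (del w X) W + bt w X (W ∪ X)ᶜ := by
  have e1 : Wᶜ = (W ∪ X)ᶜ ∪ X := by
    ext v
    have : v ∈ W → v ∉ X := fun h1 => Finset.disjoint_left.1 h h1
    simp; tauto
  have d1 : Disjoint (W ∪ X)ᶜ X := by
    rw [Finset.disjoint_left]; intro v; simp
  unfold ct
  rw [e1, bt_union_right _ _ d1, bt_union_left _ h]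
  have h2 : bt (del w X) W X = 0 := by
    rw [bt_eq_zero]
    intro u _ v hv
    unfold del
    rw [if_pos (Or.inr hv)]
  have h3 : bt (del w X) W (W ∪ X)ᶜ = bt w W (W ∪ X)ᶜ := by
    refine bt_congr fun u hu v hv => ?_
    unfold del
    rw [if_neg]
    rintro (h4 | h4)
    · exact Finset.disjoint_left.1 h hu h4
    · simp at hv; exact hv.2 h4
  omega

theorem bt_compl (w : V → V → ℕ) {X W : Finset V} (h : Disjoint W X) :
    ct w X = bt w X W + bt w X (W ∪ X)ᶜ := by
  have e1 : Xᶜ = W ∪ (W ∪ X)ᶜ := by
    ext v
    have : v ∈ W → v ∉ X := fun h1 => Finset.disjoint_left.1 h h1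
    simp; tauto
  have d1 : Disjoint W (W ∪ X)ᶜ := by
    rw [Finset.disjoint_left]; intro v; simp; tauto
  unfold ct
  conv_lhs => rw [e1]
  rw [bt_union_right _ _ d1]

/-- The weight between `W` and `X`. -/
theorem bt_sep {U X Y : Finset V} {w : V → V → ℕ} {r : ℕ} {a b c : V} (hw : RG U w r)
    (hs : Sep U w X Y a b c) {W : Finset V} (hW : W ⊆ U \ X) :
    bt w W X = (if a ∈ W then bt w {a} X else 0) + (if b ∈ W then bt w {b} X else 0) +
      (if c ∈ W then bt w {c} X else 0) := by
  have h1 : ∀ u, bt w {u} X = ∑ x ∈ X, w u x := fun u => bt_singleton_left w u X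
  have h2 : bt w W X = ∑ u ∈ W ∩ {a, b, c}, bt w {u} X := by
    have h3 : bt w W X = ∑ u ∈ W, bt w {u} X := by
      unfold bt; simp
    rw [h3]
    symm
    refine Finset.sum_subset Finset.inter_subset_left fun u hu hu' => ?_
    have h4 : u ∈ Y := by
      have h5 := hW hu
      rw [Finset.mem_sdiff, hs.un] at h5
      have h6 : u ∉ ({a, b, c} : Finset V) := fun h => hu' (Finset.mem_inter.2 ⟨hu, h⟩)
      rcases Finset.mem_union.1 h5.1 with h7 | h7
      · rcases Finset.mem_union.1 h7 with h8 | h8
        · exact absurd h8 h5.2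
        · exact h8
      · exact absurd h7 h6
    rw [bt_eq_zero]
    intro u' hu'' x hx
    rw [Finset.mem_singleton] at hu''
    rw [hu'', hw.symm]
    exact hs.zero x hx u h4
  rw [h2, Finset.inter_comm, ← Finset.filter_mem_eq_inter, Finset.sum_filter,
    Finset.sum_insert (by simp [hs.ab, hs.ac]), Finset.sum_insert (by simp [hs.bc]),
    Finset.sum_singleton, add_assoc]

theorem gev : GEV := by
  intro V _ _ U X Y w r a b c hw hr hs hX
  have hab := hs.ab
  have hac := hs.ac
  have hbc := hs.bc
  have haU : a ∈ U := by rw [hs.un]; simp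
  have hbU : b ∈ U := by rw [hs.un]; simp
  have hcU : c ∈ U := by rw [hs.un]; simp
  have hXU : X ⊆ U := by
    rw [hs.un]; intro v hv; simp [hv]
  set da := bt w {a} X with hda
  set db := bt w {b} X with hdb
  set dc := bt w {c} X with hdc
  have hdis : ∀ W, W ⊆ U \ X → Disjoint W X := fun W hW =>
    Finset.disjoint_left.2 fun v hv => (Finset.mem_sdiff.1 (hW hv)).2
  -- the cut of `X`
  have h1 : ct w X = da + db + dc := by
    have h2 := bt_sep hw hs (Finset.Subset.refl (U \ X))
    rw [hw.ct_eq, bt_comm w hw.symm, h2]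
    simp [haU, hbU, hcU, hs.aX, hs.bX, hs.cX, hda, hdb, hdc]
  have hpar : (da + db + dc) % 2 = 0 := by
    rw [← h1, hw.ct_parity hXU]
    obtain ⟨k, hk⟩ := hX
    rw [hk, mul_add]
    omega
  -- the triangle inequalities
  have key : ∀ z ∈ U, z ∉ X → 2 * bt w {z} X ≤ da + db + dc := by
    intro z hz hzX
    have h2 := submod w hw.symm X {z}
    have h3 : X ∩ {z} = ∅ := by
      rw [Finset.inter_singleton_of_notMem hzX]
    have h4 : X \ {z} = X := by
      rw [Finset.sdiff_singleton_eq_erase, Finset.erase_eq_of_notMem hzX]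
    have h5 : ({z} : Finset V) \ X = {z} := by
      rw [Finset.sdiff_eq_self_iff_disjoint]
      simpa using hzX
    rw [h3, h4, h5, hw.ct_singleton hz, bt_comm w hw.symm X {z}, h1] at h2
    have h6 : ct w (∅ : Finset V) = 0 := by unfold ct; exact bt_empty_left w _
    have h7 : r ≤ ct w (X ∪ {z}) := by
      refine hw.cut _ (Finset.union_subset hXU (by simpa using hz)) ?_
      rw [Finset.card_union_of_disjoint (by simpa using hzX), Finset.card_singleton]
      exact hX.add_one
    omega
  have ka := key a haU hs.aX
  have kb := key b hbU hs.bX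
  have kc := key c hcU hs.cX
  rw [← hda] at ka
  rw [← hdb] at kb
  rw [← hdc] at kc
  obtain ⟨n₁, hn₁⟩ : ∃ n, 2 * n + dc = da + db := ⟨(da + db - dc) / 2, by omega⟩
  obtain ⟨n₂, hn₂⟩ : ∃ n, 2 * n + db = da + dc := ⟨(da + dc - db) / 2, by omega⟩
  obtain ⟨n₃, hn₃⟩ : ∃ n, 2 * n + da = db + dc := ⟨(db + dc - da) / 2, by omega⟩
  refine ⟨n₁, n₂, n₃, ?_⟩
  set g : V → V → ℕ := fun u v => edg a b n₁ u v + edg a c n₂ u v + edg b c n₃ u v with hg
  have hct : ∀ W, ct (fun u v => del w X u v + (edg a b n₁ u v + edg a c n₂ u v +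
      edg b c n₃ u v)) W = ct (del w X) W + (ct (edg a b n₁) W + ct (edg a c n₂) W +
      ct (edg b c n₃) W) := by
    intro W
    rw [ct_add (del w X) (fun u v => edg a b n₁ u v + edg a c n₂ u v + edg b c n₃ u v),
      ct_add (fun u v => edg a b n₁ u v + edg a c n₂ u v) (edg b c n₃),
      ct_add (edg a b n₁) (edg a c n₂)]
  have hcut : ∀ W, W ⊆ U \ X → (ct (fun u v => del w X u v + (edg a b n₁ u v + edg a c n₂ u v +
      edg b c n₃ u v)) W = ct w W ∨ ct (fun u v => del w X u v + (edg a b n₁ u v +
      edg a c n₂ u v + edg b c n₃ u v)) W = ct w (W ∪ X)) := by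
    intro W hW
    have hd := hdis W hW
    have e1 := ct_del w hd
    have e2 := ct_del' w hd
    have e3 := bt_compl w hd
    have e4 := bt_sep hw hs hW
    rw [bt_comm w hw.symm X W] at e3
    rw [h1] at e3
    rw [← hda, ← hdb, ← hdc] at e4
    rw [hct, ct_edg hab, ct_edg hac, ct_edg hbc]
    by_cases ha : a ∈ W <;> by_cases hb : b ∈ W <;> by_cases hc : c ∈ W <;>
      simp only [ha, hb, hc, if_true, if_false, and_true, and_false, not_true, not_false_iff,
        true_and, false_and] at e4 ⊢ <;> omega
  refine ⟨?_, ?_, ?_, ?_, ?_⟩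
  · intro u v
    have : del w X u v = del w X v u := by
      unfold del
      rw [hw.symm u v]
      congr 1
      exact propext or_comm
    rw [this, edg_symm a b, edg_symm a c, edg_symm b c]
  · intro u
    rw [edg_self hab, edg_self hac, edg_self hbc]
    unfold del
    rw [hw.irr]
    simp
  · intro u v h
    by_cases h2 : del w X u v = 0
    · rw [h2, zero_add] at h
      have h3 : u = a ∨ u = b ∨ u = c := by
        by_contra hc
        push Not at hc
        apply h
        have e1 : edg a b n₁ u v = 0 := by
          by_contra h4; rcases edg_supp h4 with h5 | h5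
          · exact hc.1 h5
          · exact hc.2.1 h5
        have e2 : edg a c n₂ u v = 0 := by
          by_contra h4; rcases edg_supp h4 with h5 | h5
          · exact hc.1 h5
          · exact hc.2.2 h5
        have e3 : edg b c n₃ u v = 0 := by
          by_contra h4; rcases edg_supp h4 with h5 | h5
          · exact hc.2.1 h5
          · exact hc.2.2 h5
        omega
      rw [Finset.mem_sdiff]
      rcases h3 with rfl | rfl | rfl
      · exact ⟨haU, hs.aX⟩
      · exact ⟨hbU, hs.bX⟩
      · exact ⟨hcU, hs.cX⟩
    · unfold del at h2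
      by_cases h3 : u ∈ X ∨ v ∈ X
      · rw [if_pos h3] at h2; exact absurd rfl h2
      · rw [if_neg h3] at h2
        push Not at h3
        exact Finset.mem_sdiff.2 ⟨hw.supp u v h2, h3.1⟩
  · intro u hu
    -- the degree is the cut of a singleton
    have hu' := Finset.mem_sdiff.1 hu
    have e0 : ∑ v, (del w X u v + (edg a b n₁ u v + edg a c n₂ u v + edg b c n₃ u v)) =
        ct (fun u v => del w X u v + (edg a b n₁ u v + edg a c n₂ u v + edg b c n₃ u v)) {u} := by
      unfold ct
      rw [bt_singleton_left, ← Finset.sum_add_sum_compl ({u} : Finset V), Finset.sum_singleton,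
        edg_self hab, edg_self hac, edg_self hbc]
      have : del w X u u = 0 := by
        unfold del
        rw [hw.irr]
        simp
      rw [this, add_zero, add_zero, add_zero, zero_add]
    rw [e0, hct]
    have hd : Disjoint ({u} : Finset V) X := hdis _ (by simpa using hu')
    have e1 := ct_del w hd
    have e4 := bt_sep hw hs (W := {u}) (by simpa using hu')
    rw [hw.ct_singleton hu'.1] at e1
    rw [← hda, ← hdb, ← hdc] at e4
    rw [ct_edg hab, ct_edg hac, ct_edg hbc]
    simp only [Finset.mem_singleton] at e4 ⊢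
    by_cases ha : a = u
    · have hb : b ≠ u := fun h => hab (ha.trans h.symm)
      have hc : c ≠ u := fun h => hac (ha.trans h.symm)
      simp only [ha, hb, hc, if_true, if_false, and_true, and_false, not_true, not_false_iff,
        true_and, false_and] at e4 ⊢
      omega
    · by_cases hb : b = u
      · have hc : c ≠ u := fun h => hbc (hb.trans h.symm)
        simp only [ha, hb, hc, if_true, if_false, and_true, and_false, not_true, not_false_iff,
          true_and, false_and] at e4 ⊢
        omega
      · by_cases hc : c = u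
        · simp only [ha, hb, hc, if_true, if_false, and_true, and_false, not_true, not_false_iff,
            true_and, false_and] at e4 ⊢
          omega
        · simp only [ha, hb, hc, if_true, if_false, and_true, and_false, not_true, not_false_iff,
            true_and, false_and] at e4 ⊢
          omega
  · intro W hW ho
    rcases hcut W hW with h | h
    · rw [h]
      exact hw.cut W (hW.trans Finset.sdiff_subset) ho
    · rw [h]
      refine hw.cut _ (Finset.union_subset (hW.trans Finset.sdiff_subset) hXU) ?_
      rw [Finset.card_union_of_disjoint (hdis W hW)]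
      exact ho.add_even hX

end Pool.Agent.Helper77.RG3
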